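import Pool.Agent.Helper67.RG.All

/-!
# The rigid curves conjecture fails

For `r = 11` the moduli space `𝒲^11_{d,g}` has, for arbitrarily large `g` (and `g - d + 11 ≥ 2`),
points at which its local dimension is at most `780`.
-/

namespace Pool.Agent.Results.MP_d0789b_ag.BoundedComponents

open Pool.Agent.Helper67.RG

/-- The negated form of Q1 for `r = 11`: for every `c > 0` there are `g ≥ 2` and `d` with
`g - d + 11 ≥ 2`, and a pair `X` in `𝒲^11_{d,g}`, such that the local dimension of `𝒲^11_{d,g}` at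
`X` is at most `780 < c g`. -/
theorem result (c : ℝ) (hc : 0 < c) :
    ∃ (g d : ℕ) (X : Pair g d), 2 ≤ g ∧ 1 ≤ d ∧ d + 2 ≤ g + 11 ∧ 11 + 1 ≤ X.h0 ∧
      (780 : ℝ) < c * g ∧ ∀ N : ℕ, DimGE 11 X N → N ≤ 780 :=
  main_strong all_PELL all_PAIR all_THMA c hc

end Pool.Agent.Results.MP_d0789b_ag.BoundedComponents
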